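import Mathlib
import Pool.Agent.J4.H95.PA.Family

/-!
# Tate classes on products of powers: slopes dominated at a prime number by independent embeddings

Let `V i` (`i ∈ I`, `I` finite) be semisimple Frobenius modules over a finite field of
characteristic `p`, whose eigenvalues are the conjugates of a Weil number `π i` of weight `m i`
(`|π i| = p ^ (m i / 2)`) that generates the CM field `K i`: for instance the first cohomology of a
simple abelian variety `A i`, or the transcendental part of the second cohomology of a K3 surface
(for a suitable finite base field).  For an embedding `τ` of `K i` into an algebraic closure of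
`ℚ_p` let `v (τ (π i))` be the slope and `2 v (τ (π i)) - m i` its *deviation*.  We write the
deviations as integers `u i τ`, up to a common factor `κ i ≠ 0`.

Let `r` be an odd prime number and let `S i` be the set of the embeddings `τ` at which `u i τ` is not
divisible by `r`, that is, at which the `r`-adic absolute value of the deviation is maximal.  (If `r`
is large these are the embeddings with slope different from the middle slope.)

*Independence.*  Let `T i ⊆ K i` be subfields each of which is a CM field or `ℚ`, not all of them
`ℚ`.  We suppose that for all such families some `x ∈ S i` maps `T i` outside the compositum of the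
images of the `T j` under the other embeddings `y ∈ S j`, `y ≠ x, conj x`.

Theorem.  Then all Tate classes, over all finite extensions of the base field, in all tensor products
of the `V i`, are linear combinations of products of pairings `B (F x, F y) = q ^ w B (x, y)`; for
abelian varieties these are classes of divisors, by the theorem of Tate.  So the Tate conjecture
holds for all products of powers of the `A i`, in all codimensions.

Examples for one field `K`:

* If the deviations at all but one pair `x, conj x` of embeddings are divisible by `r`, there is no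
  condition: the compositum is `ℚ`.  For example all simple abelian varieties of `p`-rank one whose
  other slopes `λ` all satisfy `r ∣ 2 λ - 1` (`r`-adically), for instance with the slopes `0`, `1`
  once and `1 / 5`, `4 / 5` (`2 λ - 1 = ± 3 / 5`, `r = 3`) or `1 / 2` as often as one likes.
* If there are two pairs `x, conj x`, `y, conj y`, the condition is that `x (T) ≠ y (T)` for all CM
  subfields `T` of `K`.

There is no condition on the degree or the Galois group of the fields `K i`.

The idea: a multiplicative relation between the conjugates of the `π i` that is not trivial modulo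
`r` gives functions `f i` with values in `ℤ / r` on the embeddings of the `K i`, with
`∑ f i (g τ) u i τ = 0` for all automorphisms `g`.  Let `T i` be the smallest subfield such that
`f i` depends only on the restriction of an embedding to `T i`; it is a CM field or `ℚ`.
Automorphisms that fix the images of the `T j` under all other embeddings in the sets `S j` leave
all summands but one invariant, so also this one, and therefore fix `x (T i)`.
-/

namespace Pool.Agent.J4.H54.AtticIndependentSlopes

open NumberField Pool.Agent.W527.Norm

/-- The conjugate of an embedding of a CM field. -/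
noncomputable def conj {K : Type} [Field K] [NumberField K] [IsCMField K] {Ω : Type} [Field Ω] (τ : K →+* Ω) :
    K →+* Ω :=
  τ.comp (IsCMField.complexConj K : K →+* K)

/-- For some `i` and some `x ∈ S i` the field `x (T i)` is not contained in the compositum of the
fields `y (T j)`, where `y ∈ S j` is an embedding different from `x` and `conj x`. -/
def Independent {I : Type} {K : I → Type} [∀ i, Field (K i)] [∀ i, NumberField (K i)]
    [∀ i, IsCMField (K i)] {Ω : Type} [Field Ω] [CharZero Ω] (S : ∀ i, Set (K i →+* Ω))
    (T : ∀ i, IntermediateField ℚ (K i)) : Prop :=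
  ∃ i, ∃ x ∈ S i, ∃ z ∈ T i, x z ∉ IntermediateField.adjoin ℚ
    {t : Ω | ∃ j, ∃ y ∈ S j, (⟨j, y⟩ : Σ j, (K j →+* Ω)) ≠ ⟨i, x⟩ ∧
      (⟨j, y⟩ : Σ j, (K j →+* Ω)) ≠ ⟨i, conj x⟩ ∧ ∃ w ∈ T j, t = y w}

/-- For one field and one pair of embeddings the condition is satisfied. -/
theorem independent_of_pair {K : Type} [Field K] [NumberField K] [IsCMField K] {Ω : Type} [Field Ω]
    [CharZero Ω] (x : K →+* Ω) (S : Set (K →+* Ω)) (hx : x ∈ S)
    (hS : ∀ y ∈ S, y = x ∨ y = conj x) (T : IntermediateField ℚ K) (hT : ¬ IsTotallyReal T) :
    Independent (I := Unit) (K := fun _ => K) (fun _ => S) (fun _ => T) := by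
  obtain ⟨z, hz, hne⟩ := (Pool.Agent.W527.nonReal_iff T).2 hT
  refine ⟨(), x, hx, z, hz, fun h => hne ?_⟩
  have h1 : {t : Ω | ∃ j : Unit, ∃ y ∈ S, (⟨j, y⟩ : Σ _ : Unit, (K →+* Ω)) ≠ ⟨(), x⟩ ∧
      (⟨j, y⟩ : Σ _ : Unit, (K →+* Ω)) ≠ ⟨(), conj x⟩ ∧ ∃ w ∈ T, t = y w} = ∅ := by
    ext t
    simp only [Set.mem_setOf_eq, Set.mem_empty_iff_false, iff_false]
    rintro ⟨j, y, hy, h2, h3, _⟩
    rcases hS y hy with h4 | h4
    · exact h2 (by rw [h4])
    · exact h3 (by rw [h4])
  rw [h1, IntermediateField.adjoin_empty, IntermediateField.mem_bot] at h
  obtain ⟨q, hq⟩ := h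
  have h2 : z = algebraMap ℚ K q := by
    apply x.injective
    rw [← hq]
    simp
  rw [h2]
  simp

theorem result (p : ℕ) [Fact p.Prime] {I : Type} [Fintype I] (K : I → Type) [∀ i, Field (K i)]
    [∀ i, NumberField (K i)] [∀ i, IsCMField (K i)] (m : I → ℕ) (π : ∀ i, K i)
    (hgen : ∀ i, IntermediateField.adjoin ℚ {π i} = ⊤)
    (hweil : ∀ i, ∀ φ : K i →+* ℂ, ‖φ (π i)‖ ^ 2 = (p : ℝ) ^ m i)
    -- the deviations of the slopes
    (κ : I → ℚ) (hκ : ∀ i, κ i ≠ 0) (u : ∀ i, (K i →+* PadicAlgCl p) → ℤ)
    (hu : ∀ i, ∀ τ : K i →+* PadicAlgCl p,
      2 * (- Real.logb p ‖τ (π i)‖) - m i = (κ i : ℝ) * u i τ)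
    (r : ℕ) (hr : r.Prime) (hr2 : r ≠ 2)
    -- independence of the embeddings at which the deviation is not divisible by `r`
    (hind : ∀ T : ∀ i, IntermediateField ℚ (K i), (∀ i, T i = ⊥ ∨ ¬ IsTotallyReal (T i)) →
      (∃ i, ¬ IsTotallyReal (T i)) →
        Independent (fun i => {τ : K i →+* PadicAlgCl p | ¬ (r : ℤ) ∣ u i τ}) T) :
    PairingsGenerate p m π :=
  Pool.Agent.J4.H95.PA.generate_family hgen hweil hκ hu hr hr2 hind

end Pool.Agent.J4.H54.AtticIndependentSlopes
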